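import Pool.Agent.H20.CircRat

namespace Pool.Agent.Results.MP_05142a_co.Rational
open Pool.Agent.H20.CircDefs

theorem result (n : ℕ) (G : SimpleGraph (Fin n)) : ∃ x : ℚ, circMixThreshold G = (x : ℝ) :=
  Pool.Agent.H20.CircRat.rational G

end Pool.Agent.Results.MP_05142a_co.Rational
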